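import Pool.Agent.Q82.BTFinal

open MeasureTheory SchwartzMap
open scoped ENNReal NNReal SchwartzMap
open Pool.Agent.Q82.BT

/-- For `0 < p < 1` and `α > 0` the capacities of the Besov space `Λ^{pp}_α(ℝⁿ)` and of the
Hardy-Bessel space `F^{p2}_α(ℝⁿ)` have the same compact null sets, and these are the compact sets
with `(n - α p)`-dimensional Hausdorff measure zero if `α p < n`, and only the empty set if
`α p ≥ n`. The same holds for `F^{pq}_α(ℝⁿ)` with `q ≥ p`. -/
theorem Pool.Agent.Results.MP_9b3711_an.NullSets.result (n : ℕ) (hn : 1 ≤ n) (α p : ℝ)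
    (hα : 0 < α) (hp : 0 < p) (hp1 : p < 1) (Φ Ψ : 𝓢(E n, ℂ)) (hΦ : IsGenerator Φ)
    (hΨ : IsGenerator Ψ) (D D' : Set (E n → ℝ)) (hD : IsTestClass D) (hD' : IsTestClass D')
    (K : Set (E n)) (hK : IsCompact K) :
    (capacity (besovNorm Φ α p p) p D K = 0 ↔ capacity (triebelNorm Ψ α p 2) p D' K = 0) ∧
    (capacity (besovNorm Φ α p p) p D K = 0 ↔
      if α * p < n then μH[n - α * p] K = 0 else K = ∅) ∧
    (∀ q : ℝ, p ≤ q → (capacity (triebelNorm Ψ α p q) p D' K = 0 ↔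
      if α * p < n then μH[n - α * p] K = 0 else K = ∅)) := by
  have h1 := null_iff hΦ hn hα hp hp1.le (between_besov Φ α hp) hD hK
  have h2 : ∀ q : ℝ, p ≤ q → (capacity (triebelNorm Ψ α p q) p D' K = 0 ↔
      if α * p < n then μH[n - α * p] K = 0 else K = ∅) := fun q hq =>
    null_iff hΨ hn hα hp hp1.le (between_triebel Ψ α hp hq) hD' hK
  exact ⟨h1.trans (h2 2 (by linarith)).symm, h1, h2⟩
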